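import Pool.Agent.helper48.PR.SpecH

set_option autoImplicit false

/-!
# Project pr, module HI: conclusion for the Lie algebra
-/

namespace Pool.Agent.PR

theorem HI (hHG : HG_stmt) (hHL : HL_stmt) (hHM : HM_stmt) : HI_stmt := by
  intro F V _ _ _ _ _ m hm X Y Z hLH hZ hn
  have h1 : Z * Z = 0 := by
    by_contra h
    have := hHG F V m hm X Y Z hLH h
    omega
  refine ⟨h1, ?_⟩
  have h2 := hHL F V m X Y Z hLH h1 hZ
  have h3 : Module.finrank F (LinearMap.range Z) ≠ 0 := by
    intro h
    apply hZ
    rw [← LinearMap.range_eq_bot]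
    exact Submodule.finrank_eq_zero.1 h
  have h4 : Module.finrank F (LinearMap.range Z) ≠ 2 := by
    intro h
    have h5 := hHM F V m hm X Y Z hLH h1 h
    omega
  omega

end Pool.Agent.PR
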